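import Pool.Agent.Helper92.Ru.GoalsS

set_option autoImplicit false

open NumberField

namespace Pool.Agent.Helper55.Ru

open Pool.Agent.Helper92.Ru

section lin

variable {k : Type} [Field k] {ι : Type} [Fintype ι]

theorem span_image_eq {n : ℕ} (x : Fin n → ι → k) (hx : LinearIndependent k x)
    (W : Submodule k (ι → k)) (S : Finset (Fin n)) (hS : ∀ j ∈ S, x j ∈ W)
    (hc : S.card = Module.finrank k W) :
    Submodule.span k (x '' (S : Set (Fin n))) = W := by
  apply Submodule.eq_of_le_of_finrank_eq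
  · rw [Submodule.span_le]
    rintro _ ⟨j, hj, rfl⟩
    exact hS j hj
  · have h : LinearIndependent k (fun j : S => x j) := hx.comp _ Subtype.val_injective
    rw [Set.image_eq_range]
    have h2 := finrank_span_eq_card h
    rw [← hc]
    simpa using h2

theorem span_top {n : ℕ} (x : Fin n → ι → k) (hx : LinearIndependent k x)
    (hn : n = Fintype.card ι) : Submodule.span k (Set.range x) = ⊤ := by
  apply hx.span_eq_top_of_card_eq_finrank'
  simp [hn]

theorem exists_min_index {n : ℕ} (x : Fin n → ι → k) (hx : LinearIndependent k x)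
    (hn : n = Fintype.card ι) (y : ι → k) (hy : y ≠ 0) :
    ∃ j : Fin n, y ∈ Submodule.span k (x '' {j' | j' ≤ j}) ∧
      y ∉ Submodule.span k (x '' {j' | j' < j}) := by
  classical
  have hpos : 0 < n := by
    rw [hn]
    by_contra h
    have h0 : Fintype.card ι = 0 := by omega
    have : IsEmpty ι := Fintype.card_eq_zero_iff.1 h0
    exact hy (Subsingleton.elim _ _)
  have hex : ∃ i : ℕ, ∃ h : i < n, y ∈ Submodule.span k (x '' {j' | j' ≤ ⟨i, h⟩}) := by
    refine ⟨n - 1, by omega, ?_⟩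
    have h1 : (x '' {j' | j' ≤ (⟨n - 1, by omega⟩ : Fin n)}) = Set.range x := by
      rw [← Set.image_univ]
      congr 1
      ext j
      simp only [Set.mem_ofPred_eq, Set.mem_univ, iff_true, Fin.le_def]
      omega
    rw [h1, span_top x hx hn]
    trivial
  obtain ⟨hlt, hmem⟩ := Nat.find_spec hex
  refine ⟨⟨Nat.find hex, hlt⟩, hmem, ?_⟩
  intro hcon
  rcases Nat.eq_zero_or_pos (Nat.find hex) with h0 | h0
  · have h1 : {j' : Fin n | j' < ⟨Nat.find hex, hlt⟩} = ∅ := by
      ext j
      simp only [Set.mem_ofPred_eq, Set.mem_empty_iff_false, iff_false, Fin.lt_def]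
      omega
    rw [h1] at hcon
    simp at hcon
    exact hy hcon
  · refine Nat.find_min hex (m := Nat.find hex - 1) (by omega) ⟨by omega, ?_⟩
    have h1 : {j' : Fin n | j' < ⟨Nat.find hex, hlt⟩} =
        {j' : Fin n | j' ≤ ⟨Nat.find hex - 1, by omega⟩} := by
      ext j
      simp only [Set.mem_ofPred_eq, Fin.lt_def, Fin.le_def]
      omega
    rw [← h1]
    exact hcon

theorem finrank_lt_le {n : ℕ} (x : Fin n → ι → k) (j : Fin n) :
    Module.finrank k (Submodule.span k (x '' {j' | j' < j})) ≤ j := by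
  classical
  have h1 : x '' {j' | j' < j} = ((Finset.Iio j).image x : Set (ι → k)) := by
    ext y; simp
  rw [h1]
  refine (finrank_span_finset_le_card _).trans ?_
  refine Finset.card_image_le.trans ?_
  simp

end lin

section real

theorem exists_mono {n : ℕ} (hn : 2 ≤ n) (la : Fin n → ℝ)
    (h2 : ∀ j' j : Fin n, j' ≤ j → la j' ≤ 2 * la j) :
    ∃ m : Fin n → ℝ, Monotone m ∧ (∀ j : Fin n, (j : ℕ) + 1 < n → la j ≤ m j) ∧
      (∀ j, m j ≤ 2 * la j) ∧ (∀ j, ∃ j' : Fin n, (j' : ℕ) + 1 < n ∧ m j = la j') := by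
  classical
  let F : Fin n → Finset (Fin n) := fun j => Finset.univ.filter fun j' => j' ≤ j ∧ (j' : ℕ) + 1 < n
  have hF : ∀ j, (F j).Nonempty := fun j => ⟨⟨0, by omega⟩, by
    simp only [F, Finset.mem_filter, Finset.mem_univ, true_and, Fin.le_def]
    omega⟩
  refine ⟨fun j => (F j).sup' (hF j) la, ?_, ?_, ?_, ?_⟩
  · intro a b hab
    apply Finset.sup'_mono
    intro j hj
    simp only [F, Finset.mem_filter, Finset.mem_univ, true_and] at hj ⊢
    exact ⟨hj.1.trans hab, hj.2⟩
  · intro j hj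
    apply Finset.le_sup'
    simp only [F, Finset.mem_filter, Finset.mem_univ, true_and]
    exact ⟨le_rfl, hj⟩
  · intro j
    apply Finset.sup'_le
    intro b hb
    simp only [F, Finset.mem_filter, Finset.mem_univ, true_and] at hb
    exact h2 b j hb.1
  · intro j
    obtain ⟨b, hb, hb2⟩ := Finset.exists_mem_eq_sup' (hF j) la
    simp only [F, Finset.mem_filter, Finset.mem_univ, true_and] at hb
    exact ⟨b, hb.2, hb2⟩

theorem prod_bound {N n : ℕ} (hN : N = n + 2) (f : Fin N → ℝ) (δ E P CM : ℝ) (hδ : 0 < δ)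
    (hP : 0 < P) (hf : ∀ j, δ ≤ f j) (j0 j : Fin N) (hj : j ≠ j0) (hf0 : E ≤ f j0)
    (h : P * ∏ j, f j ≤ CM) : f j * E * δ ^ n * P ≤ CM := by
  classical
  have hfp : ∀ j, 0 < f j := fun j => hδ.trans_le (hf j)
  have h1 : ∏ j, f j = f j * (f j0 * ∏ i ∈ (Finset.univ.erase j).erase j0, f i) := by
    rw [Finset.mul_prod_erase (Finset.univ.erase j) f (by simp [hj.symm]),
      Finset.mul_prod_erase Finset.univ f (by simp)]
  have hcard : ((Finset.univ.erase j).erase j0).card = n := by
    rw [Finset.card_erase_of_mem (by simp [hj.symm]), Finset.card_erase_of_mem (by simp)]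
    simp [hN]
  have h2 : δ ^ n ≤ ∏ i ∈ (Finset.univ.erase j).erase j0, f i := by
    calc δ ^ n = ∏ i ∈ (Finset.univ.erase j).erase j0, δ := by rw [Finset.prod_const, hcard]
      _ ≤ _ := Finset.prod_le_prod (fun _ _ => hδ.le) fun i _ => hf i
  have h3 : E * δ ^ n ≤ f j0 * ∏ i ∈ (Finset.univ.erase j).erase j0, f i :=
    mul_le_mul hf0 h2 (pow_nonneg hδ.le _) (hfp j0).le
  calc f j * E * δ ^ n * P = P * (f j * (E * δ ^ n)) := by ring
    _ ≤ P * (f j * (f j0 * ∏ i ∈ (Finset.univ.erase j).erase j0, f i)) := by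
        apply mul_le_mul_of_nonneg_left _ hP.le
        exact mul_le_mul_of_nonneg_left h3 (hfp j).le
    _ = P * ∏ j, f j := by rw [h1]
    _ ≤ CM := h

theorem final_bound {n : ℕ} (fj c κ l m P CM CD : ℝ) (hc : 0 < c) (hκ : 0 < κ)
    (hm : 0 < m) (hCD : 0 < CD) (hfj : 0 ≤ fj)
    (h1 : fj * (c * κ * l / (2 * m)) * (c * κ / 4) ^ n * P ≤ CM)
    (h2 : m ≤ CD * P * κ ^ (n + 2) * l) :
    fj ≤ 2 * CM * CD * 4 ^ n / c ^ (n + 1) * κ := by
  have h3 : 1 ≤ CD * P * κ ^ (n + 2) * l / m := by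
    rw [le_div_iff₀ hm]; linarith
  calc fj = fj * 1 := (mul_one _).symm
    _ ≤ fj * (CD * P * κ ^ (n + 2) * l / m) := mul_le_mul_of_nonneg_left h3 hfj
    _ = (fj * (c * κ * l / (2 * m)) * (c * κ / 4) ^ n * P) *
        (2 * CD * 4 ^ n / c ^ (n + 1) * κ) := by
        rw [div_pow, mul_pow]
        field_simp
        ring
    _ ≤ CM * (2 * CD * 4 ^ n / c ^ (n + 1) * κ) := by
        apply mul_le_mul_of_nonneg_right h1
        positivity
    _ = _ := by ring

theorem rpow_bounds (x : ℝ) (hx : 0 < x) (s : ℕ) (hs : 1 ≤ s) :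
    x ^ ((1 : ℝ) / s) ≤ 1 + x := by
  have hs' : (1 : ℝ) ≤ s := by exact_mod_cast hs
  rcases le_total x 1 with h | h
  · have : x ^ ((1 : ℝ) / s) ≤ 1 := Real.rpow_le_one hx.le h (by positivity)
    linarith
  · have : x ^ ((1 : ℝ) / s) ≤ x ^ (1 : ℝ) := by
      apply Real.rpow_le_rpow_of_exponent_le h
      rw [div_le_one (by linarith)]
      exact hs'
    rw [Real.rpow_one] at this
    linarith

end real


section main

variable {k : Type} [Field k] [NumberField k] {T : Finset (FinitePlace k)} {ι : Type} [Fintype ι]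

theorem zv_nonneg (A : SP k T → Matrix ι ι k) (w : SP k T → ι → ℝ) (hw : ∀ v i, 0 < w v i)
    (x : ι → k) (v : SP k T) : 0 ≤ ⨆ i, nS v ((A v).mulVec x i) / w v i :=
  Real.iSup_nonneg fun i => div_nonneg (nS_nonneg _ _) (hw v i).le

theorem le_zv (A : SP k T → Matrix ι ι k) (w : SP k T → ι → ℝ)
    (x : ι → k) (v : SP k T) (i : ι) :
    nS v ((A v).mulVec x i) / w v i ≤ ⨆ i, nS v ((A v).mulVec x i) / w v i :=
  le_ciSup (f := fun i => nS v ((A v).mulVec x i) / w v i) (Set.finite_range _).bddAbove i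

theorem HH_nonneg (A : SP k T → Matrix ι ι k) (w : SP k T → ι → ℝ) (hw : ∀ v i, 0 < w v i)
    (x : ι → k) : 0 ≤ HH A w x :=
  Finset.prod_nonneg fun v _ => zv_nonneg A w hw x v

/-- twisting the weights by factors with product one does not change the product -/
theorem prod_twist [DecidableEq (SP k T)] {n : ℕ} (w : SP k T → ι → ℝ) (v1 : SP k T)
    (π : Fin n ≃ ι) (ρ : Fin n → ℝ) (hρ : ∏ j, ρ j = 1) :
    ∏ v, ∏ i, (if v = v1 then w v i / ρ (π.symm i) else w v i) = ∏ v, ∏ i, w v i := by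
  have h1 : ∀ v, ∏ i, (if v = v1 then w v i / ρ (π.symm i) else w v i) = ∏ i, w v i := by
    intro v
    by_cases hv : v = v1
    · simp only [hv, if_true]
      rw [Finset.prod_div_distrib]
      have h2 : ∏ i, ρ (π.symm i) = ∏ j, ρ j := Equiv.prod_comp π.symm ρ
      rw [h2, hρ, div_one]
    · simp [hv]
  exact Finset.prod_congr rfl fun v _ => h1 v

/-- balancing: from a point of `W` with small `HH` to a point of `W` in a box -/
theorem balance (C5 : ℝ) (hC5 : 0 < C5)
    (hbal : ∀ y : SP k T → ℝ, (∀ v, 0 < y v) → C5 ≤ ∏ v, y v →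
        ∃ α : k, α ≠ 0 ∧ SInt T α ∧ ∀ v, nS v α ≤ y v)
    (A : SP k T → Matrix ι ι k) (w : SP k T → ι → ℝ) (hw : ∀ v i, 0 < w v i)
    (x : ι → k) (hx : SIntV T x) (B : ℝ) (hB : 0 < B) (hpos : 0 < HH A w x) (hH : HH A w x ≤ B) :
    ∃ α : k, α ≠ 0 ∧ InBox A
      (fun v i => (C5 * B) ^ ((1 : ℝ) / (Fintype.card (SP k T) : ℝ)) * w v i) (α • x) := by
  have hs : 0 < Fintype.card (SP k T) := by
    have : Nonempty (SP k T) := ⟨Sum.inl (Classical.arbitrary _)⟩
    exact Fintype.card_pos
  set z : SP k T → ℝ := fun v => ⨆ i, nS v ((A v).mulVec x i) / w v i with hz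
  have hz0 : ∀ v, 0 < z v := by
    intro v
    rcases (zv_nonneg A w hw x v).lt_or_eq with h | h
    · exact h
    · exfalso
      have : HH A w x = 0 := Finset.prod_eq_zero (Finset.mem_univ v) h.symm
      linarith
  have hHz : HH A w x = ∏ v, z v := rfl
  set D : ℝ := (C5 * B) ^ ((1 : ℝ) / (Fintype.card (SP k T) : ℝ)) with hD
  have hD0 : 0 < D := Real.rpow_pos_of_pos (by positivity) _
  have hDs : D ^ Fintype.card (SP k T) = C5 * B := by
    rw [hD, ← Real.rpow_natCast, ← Real.rpow_mul (by positivity), one_div,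
      inv_mul_cancel₀ (by exact_mod_cast hs.ne'), Real.rpow_one]
  obtain ⟨α, hα0, hαS, hα⟩ := hbal (fun v => D / z v) (fun v => div_pos hD0 (hz0 v)) (by
    rw [Finset.prod_div_distrib, Finset.prod_const, Finset.card_univ, hDs, ← hHz,
      le_div_iff₀ hpos]
    exact mul_le_mul_of_nonneg_left hH hC5.le)
  refine ⟨α, hα0, ?_, ?_⟩
  · intro i
    exact hαS.mul (hx i)
  · intro v i
    rw [Matrix.mulVec_smul, Pi.smul_apply, smul_eq_mul, nS_mul]
    have h1 : nS v ((A v).mulVec x i) ≤ z v * w v i := by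
      rw [← div_le_iff₀ (hw v i)]
      exact le_zv A w x v i
    calc nS v α * nS v ((A v).mulVec x i) ≤ (D / z v) * (z v * w v i) :=
          mul_le_mul (hα v) h1 (nS_nonneg _ _) (div_pos hD0 (hz0 v)).le
      _ = D * w v i := by
          have := (hz0 v).ne'
          field_simp

end main

/-- S10 (packet Flat) -/
theorem flat (hBal : Bal1) (hDet : DetLB) (hLB : HHLB) (hGr : GreedyEx) (hTw : Twist)
    (hM2 : M2) : Flat := by
  classical
  intro k _ _ T ι _ _ _ A hA hN
  have v0 : InfinitePlace k := Classical.arbitrary _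
  obtain ⟨C5, hC5, hbal⟩ := hBal k T
  obtain ⟨CD, hCD, hdet⟩ := hDet k T ι A hA
  obtain ⟨cH, hcH, hlb⟩ := hLB k T ι A hA
  obtain ⟨c, hc, hc1, htw⟩ := hTw k T ι A hA v0
  obtain ⟨CM, hCM, hm2⟩ := hM2 k T ι A hA
  obtain ⟨n, hn⟩ : ∃ n, Fintype.card ι = n + 2 := ⟨_, (Nat.sub_add_cancel hN).symm⟩
  have hs1 : 1 ≤ Fintype.card (SP k T) := by
    have : Nonempty (SP k T) := ⟨Sum.inl v0⟩
    exact Fintype.card_pos
  generalize hC4 : 2 * CM * CD * 4 ^ n / c ^ (n + 1) = C4
  have hC4p : 0 < C4 := by rw [← hC4]; positivity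
  generalize hCL : 1 + 1 / cH + CM * (1 / cH) ^ (n + 1) = CL
  have hCL1 : 1 ≤ CL := by
    rw [← hCL]
    have h1 : 0 < 1 / cH := by positivity
    have h2 : 0 < CM * (1 / cH) ^ (n + 1) := by positivity
    linarith
  generalize hb : 2 * Fintype.card (SP k T) * (n + 2) = b
  have hD : 0 < C5 * C4 := by positivity
  refine ⟨3 + 4 * C4 / c + (C5 * C4) ^ (n + 2) * 2 ^ (n + 2) * CM + (1 + C5 * C4) * CL ^ 3 +
    (1 + 1 / (C5 * C4)) * CL ^ 3, 3 * b + 1, ?_, ?_⟩
  · have h1 : 0 ≤ 4 * C4 / c := by positivity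
    have h2 : 0 ≤ (C5 * C4) ^ (n + 2) * 2 ^ (n + 2) * CM := by positivity
    have h3 : 0 ≤ (1 + C5 * C4) * CL ^ 3 := by positivity
    have h4 : 0 ≤ (1 + 1 / (C5 * C4)) * CL ^ 3 := by positivity
    linarith
  intro w K R G hK hR hG hw hwK hKw W hW hgap
  have hG3 : 3 + 4 * C4 / c ≤ G := by
    have h2 : 0 ≤ (C5 * C4) ^ (n + 2) * 2 ^ (n + 2) * CM := by positivity
    have h3 : 0 ≤ (1 + C5 * C4) * CL ^ 3 := by positivity
    have h4 : 0 ≤ (1 + 1 / (C5 * C4)) * CL ^ 3 := by positivity
    linarith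
  have hG2 : 2 < G := by
    have h1 : 0 ≤ 4 * C4 / c := by positivity
    linarith
  have hG0 : 0 < G := by linarith
  -- positivity of HH
  have hHpos : ∀ (w : SP k T → ι → ℝ), (∀ v i, 0 < w v i) → ∀ x : ι → k, SIntV T x → x ≠ 0 →
      0 < HH A w x := by
    intro w hw x hx hx0
    rcases (HH_nonneg A w hw x).lt_or_eq with h | h
    · exact h
    · exfalso
      have := hlb w hw x hx hx0
      rw [← h, zero_mul] at this
      linarith
  generalize hPdef : ∏ v, ∏ i, w v i = P
  have hP : 0 < P := by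
    rw [← hPdef]
    exact Finset.prod_pos fun v _ => Finset.prod_pos fun i _ => hw v i
  obtain ⟨x, hxG⟩ := hGr k T ι A hA w hw
  have hxG' := hxG
  obtain ⟨hxli, hxS, hxg⟩ := hxG
  generalize hla : (fun j => HH A w (x j)) = la
  have hlaj : ∀ j, HH A w (x j) = la j := fun j => by rw [← hla]
  have hlap : ∀ j, 0 < la j := fun j => by
    rw [← hlaj]; exact hHpos w hw (x j) (hxS j) (hxli.ne_zero j)
  have hla2 : ∀ j' j : Fin (Fintype.card ι), j' ≤ j → la j' ≤ 2 * la j := by
    intro j' j h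
    rw [← hlaj, ← hlaj]
    apply hxg j' (x j) (hxS j)
    apply hxli.notMem_span_image
    simp only [Set.mem_ofPred_eq, not_lt]
    exact h
  obtain ⟨m, hmono, hm1, hm2', hm3⟩ := exists_mono hN la hla2
  have hmp : ∀ j, 0 < m j := fun j => by
    obtain ⟨j', -, h⟩ := hm3 j
    rw [h]; exact hlap j'
  -- Claim 1
  have hcl1 : ∀ j : Fin (Fintype.card ι), (j : ℕ) + 1 < Fintype.card ι → x j ∈ W ∧ la j ≤ 2 * R := by
    intro j hj
    have hex : ∃ y, y ∈ W ∧ SIntV T y ∧ HH A w y ≤ R ∧
        y ∉ Submodule.span k (x '' {j' | j' < j}) := by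
      by_contra hcon
      push Not at hcon
      have h1 : W ≤ Submodule.span k (x '' {j' | j' < j}) := by
        refine hgap.1.trans ?_
        rw [Submodule.span_le]
        rintro y ⟨hy1, hy2, hy3⟩
        exact hcon y hy1 hy2 hy3
      have h2 := Submodule.finrank_mono h1
      have h3 := finrank_lt_le x j
      omega
    obtain ⟨y, hyW, hyS, hyR, hy⟩ := hex
    have h1 := hxg j y hyS hy
    rw [hlaj] at h1
    refine ⟨?_, by linarith⟩
    by_contra hxW
    have h2 := hgap.2 (x j) (hxS j) hxW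
    rw [hlaj] at h2
    nlinarith
  generalize hjl : (⟨n + 1, by omega⟩ : Fin (Fintype.card ι)) = jl
  have hjlv : (jl : ℕ) = n + 1 := by rw [← hjl]
  have hWfr : Module.finrank k W = n + 1 := by omega
  have hWspan : Submodule.span k (x '' ((Finset.Iio jl : Finset (Fin (Fintype.card ι))) :
      Set (Fin (Fintype.card ι)))) = W := by
    apply span_image_eq x hxli W
    · intro j hj
      rw [Finset.mem_Iio, Fin.lt_def] at hj
      exact (hcl1 j (by omega)).1
    · rw [Fin.card_Iio, hWfr, hjlv]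
  have hsetl : {j' : Fin (Fintype.card ι) | j' < jl} =
      ((Finset.Iio jl : Finset (Fin (Fintype.card ι))) : Set (Fin (Fintype.card ι))) := by
    ext j; simp
  have hxl : x jl ∉ W := by
    rw [← hWspan]
    apply hxli.notMem_span_image
    simp
  -- kappa and rho
  have hNpos : (0 : ℝ) < Fintype.card ι := by
    have : 0 < Fintype.card ι := by omega
    exact_mod_cast this
  obtain ⟨κ, hκ, hκN⟩ : ∃ κ : ℝ, 0 < κ ∧ κ ^ Fintype.card ι = ∏ j, m j := by
    have hpm : 0 < ∏ j, m j := Finset.prod_pos fun j _ => hmp j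
    refine ⟨(∏ j, m j) ^ ((1 : ℝ) / (Fintype.card ι : ℝ)), Real.rpow_pos_of_pos hpm _, ?_⟩
    rw [← Real.rpow_natCast, ← Real.rpow_mul hpm.le, one_div, inv_mul_cancel₀ hNpos.ne',
      Real.rpow_one]
  obtain ⟨π, hπ⟩ := htw w hw x hxli
  have hρ1 : ∏ j, κ / m j = 1 := by
    rw [Finset.prod_div_distrib, Finset.prod_const, Finset.card_univ, Fintype.card_fin, hκN]
    exact div_self (Finset.prod_pos fun j _ => hmp j).ne'
  generalize hw' : (fun (v : SP k T) (i : ι) =>
    if v = Sum.inl v0 then w v i / (κ / m (π.symm i)) else w v i) = w'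
  have hw'v : ∀ v i, w' v i =
    if v = Sum.inl v0 then w v i / (κ / m (π.symm i)) else w v i := fun v i => by rw [← hw']
  have hw'0 : ∀ v i, 0 < w' v i := by
    intro v i
    rw [hw'v]
    split_ifs
    · exact div_pos (hw v i) (div_pos hκ (hmp _))
    · exact hw v i
  have hw'P : ∏ v, ∏ i, w' v i = P := by
    rw [← hw', ← hPdef]
    exact prod_twist w (Sum.inl v0) π (fun j => κ / m j) hρ1
  have htwist := hπ (fun j => κ / m j) (fun j => div_pos hκ (hmp j))
    (fun a b hab => div_le_div_of_nonneg_left hκ.le (hmp a) (hmono hab)) w'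
    (fun v i hv => by rw [hw'v, if_neg hv])
    (fun j => by rw [hw'v, if_pos rfl, Equiv.symm_apply_apply])
  -- Claim 2
  have hcl2 : ∀ y : ι → k, SIntV T y → y ≠ 0 → c * κ / 4 ≤ HH A w' y := by
    intro y hyS hy0
    obtain ⟨j, hj1, hj2⟩ := exists_min_index x hxli rfl y hy0
    have h1 := htwist j y hj1
    have h2 := hxg j y hyS hj2
    rw [hlaj] at h2
    have h3 := hm2' j
    refine le_trans ?_ h1
    have h4 : m j / 4 ≤ HH A w y := by linarith
    calc c * κ / 4 = c * (κ / m j) * (m j / 4) := by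
          have := (hmp j).ne'
          field_simp
      _ ≤ c * (κ / m j) * HH A w y := by
          apply mul_le_mul_of_nonneg_left h4
          exact mul_nonneg hc.le (div_pos hκ (hmp j)).le
  -- Claim 3
  have hcl3 : ∀ y : ι → k, SIntV T y → y ∉ W →
      c * κ * la jl / (2 * m jl) ≤ HH A w' y ∧ c * κ * G / 4 ≤ HH A w' y := by
    intro y hyS hyW
    have hmem : y ∈ Submodule.span k (x '' {j' | j' ≤ jl}) := by
      have h1 : (x '' {j' | j' ≤ jl}) = Set.range x := by
        rw [← Set.image_univ]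
        congr 1
        ext j
        simp only [Set.mem_ofPred_eq, Set.mem_univ, iff_true, Fin.le_def]
        omega
      rw [h1, span_top x hxli rfl]
      trivial
    have h1 := htwist jl y hmem
    have hnm : y ∉ Submodule.span k (x '' {j' | j' < jl}) := by
      rw [hsetl, hWspan]; exact hyW
    have h2 := hxg jl y hyS hnm
    rw [hlaj] at h2
    have h3 := hgap.2 y hyS hyW
    have hmR : m jl ≤ 2 * R := by
      obtain ⟨j', hj', h⟩ := hm3 jl
      rw [h]
      exact (hcl1 j' hj').2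
    have hcm : 0 ≤ c * (κ / m jl) := mul_nonneg hc.le (div_pos hκ (hmp jl)).le
    constructor
    · refine le_trans ?_ h1
      have h4 : la jl / 2 ≤ HH A w y := by linarith
      calc c * κ * la jl / (2 * m jl) = c * (κ / m jl) * (la jl / 2) := by
            have := (hmp jl).ne'
            field_simp
        _ ≤ _ := mul_le_mul_of_nonneg_left h4 hcm
    · refine le_trans ?_ h1
      have h4 : m jl * G / 4 ≤ HH A w y := by
        refine le_trans ?_ h3
        nlinarith
      calc c * κ * G / 4 = c * (κ / m jl) * (m jl * G / 4) := by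
            have := (hmp jl).ne'
            field_simp
        _ ≤ _ := mul_le_mul_of_nonneg_left h4 hcm
  -- (c)
  obtain ⟨x', hx'G⟩ := hGr k T ι A hA w' hw'0
  have hM' := hm2 w' hw'0 x' hx'G
  obtain ⟨hx'li, hx'S, -⟩ := hx'G
  rw [hw'P] at hM'
  obtain ⟨j0, hj0⟩ : ∃ j0, x' j0 ∉ W := by
    by_contra hcon
    push Not at hcon
    have h1 : (⊤ : Submodule k (ι → k)) ≤ W := by
      rw [← span_top x' hx'li rfl, Submodule.span_le]
      rintro _ ⟨j, rfl⟩
      exact hcon j
    have h2 := Submodule.finrank_mono h1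
    rw [finrank_top, Module.finrank_pi] at h2
    omega
  have hδ : 0 < c * κ / 4 := by positivity
  have hkey1 : m jl ≤ CD * P * κ ^ (n + 2) * la jl := by
    have h1 := hdet w hw (Fin (Fintype.card ι)) (by simp) x hxli hxS
    rw [hPdef] at h1
    have h2 : ∏ j, HH A w (x j) = ∏ j, la j := Finset.prod_congr rfl fun j _ => hlaj j
    rw [h2] at h1
    have h3 : ∏ j, la j = la jl * ∏ j ∈ Finset.univ.erase jl, la j := by
      rw [Finset.mul_prod_erase Finset.univ la (by simp)]
    have h4 : ∏ j, m j = m jl * ∏ j ∈ Finset.univ.erase jl, m j := by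
      rw [Finset.mul_prod_erase Finset.univ m (by simp)]
    have h5 : ∏ j ∈ Finset.univ.erase jl, la j ≤ ∏ j ∈ Finset.univ.erase jl, m j := by
      apply Finset.prod_le_prod (fun j _ => (hlap j).le)
      intro j hj
      apply hm1
      have h6 : j ≠ jl := (Finset.mem_erase.1 hj).1
      have h7 : (j : ℕ) ≠ jl := fun h => h6 (Fin.ext h)
      have := j.isLt
      omega
    rw [← hn, hκN, h4]
    have h8 : 0 ≤ CD * P * la jl := by
      have := hlap jl
      positivity
    have h9 : 1 ≤ CD * P * la jl * ∏ j ∈ Finset.univ.erase jl, m j := by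
      calc 1 ≤ CD * P * ∏ j, la j := h1
        _ = CD * P * la jl * ∏ j ∈ Finset.univ.erase jl, la j := by rw [h3]; ring
        _ ≤ _ := mul_le_mul_of_nonneg_left h5 h8
    calc m jl = m jl * 1 := (mul_one _).symm
      _ ≤ m jl * (CD * P * la jl * ∏ j ∈ Finset.univ.erase jl, m j) :=
          mul_le_mul_of_nonneg_left h9 (hmp jl).le
      _ = _ := by ring
  have hsmall : ∀ j, j ≠ j0 → HH A w' (x' j) ≤ C4 * κ := by
    intro j hj
    have h1 := prod_bound hn (fun j => HH A w' (x' j)) (c * κ / 4)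
      (c * κ * la jl / (2 * m jl)) P CM hδ hP
      (fun j => hcl2 (x' j) (hx'S j) (hx'li.ne_zero j)) j0 j hj
      (hcl3 (x' j0) (hx'S j0) hj0).1 hM'
    have h2 := final_bound (HH A w' (x' j)) c κ (la jl) (m jl) P CM CD hc hκ (hmp jl) hCD
      (HH_nonneg A w' hw'0 _) h1 hkey1
    rw [hC4] at h2
    exact h2
  have hx'W : ∀ j, j ≠ j0 → x' j ∈ W := by
    intro j hj
    by_contra hcon
    have h1 := hsmall j hj
    have h2 := (hcl3 (x' j) (hx'S j) hcon).2
    have h3 : c * κ * G / 4 ≤ C4 * κ := h2.trans h1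
    have h4 : c * G / 4 ≤ C4 := by
      have : κ * (c * G / 4) ≤ κ * C4 := by linarith
      exact le_of_mul_le_mul_left this hκ
    have h5 : 4 * C4 / c < G := by linarith
    rw [div_lt_iff₀ hc] at h5
    linarith
  have hWspan' : Submodule.span k (x' '' ((Finset.univ.erase j0 : Finset (Fin (Fintype.card ι))) :
      Set (Fin (Fintype.card ι)))) = W := by
    apply span_image_eq x' hx'li W
    · intro j hj
      exact hx'W j (Finset.mem_erase.1 hj).1
    · rw [Finset.card_erase_of_mem (by simp), hWfr]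
      simp [hn]
  -- (d)
  have hCκ : 0 < C5 * (C4 * κ) := by positivity
  have hroot : (0 : ℝ) < (C5 * (C4 * κ)) ^ ((1 : ℝ) / (Fintype.card (SP k T) : ℝ)) :=
    Real.rpow_pos_of_pos hCκ _
  -- bounds of la
  generalize hL : CL * K ^ b = L
  have hKb : 1 ≤ K ^ b := one_le_pow₀ hK
  have hL1 : 1 ≤ L := by
    rw [← hL]
    nlinarith
  have hsupK : ∏ v : SP k T, ⨆ i, w v i ≤ K ^ Fintype.card (SP k T) := by
    calc ∏ v : SP k T, ⨆ i, w v i ≤ ∏ v : SP k T, K := by
          apply Finset.prod_le_prod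
          · intro v _
            exact Real.iSup_nonneg fun i => (hw v i).le
          · intro v _
            exact ciSup_le fun i => hwK v i
      _ = _ := by rw [Finset.prod_const, Finset.card_univ]
  have hK0 : 0 < K := by linarith
  have hla_lo : ∀ j, cH / K ^ Fintype.card (SP k T) ≤ la j := by
    intro j
    have h1 := hlb w hw (x j) (hxS j) (hxli.ne_zero j)
    rw [hlaj] at h1
    rw [div_le_iff₀ (by positivity)]
    calc cH ≤ _ := h1
      _ ≤ _ := mul_le_mul_of_nonneg_left hsupK (hlap j).le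
  have hs_le_b : Fintype.card (SP k T) ≤ b := by
    rw [← hb]; nlinarith
  have hla_lo' : ∀ j, 1 / L ≤ la j := by
    intro j
    refine le_trans ?_ (hla_lo j)
    rw [div_le_div_iff₀ (by linarith) (by positivity), one_mul, ← hL]
    have h1 : K ^ Fintype.card (SP k T) ≤ K ^ b := pow_le_pow_right₀ hK hs_le_b
    have h2 : 1 ≤ cH * CL := by
      rw [← hCL]
      have h3 : cH * (1 / cH) = 1 := by field_simp
      have h4 : 0 < CM * (1 / cH) ^ (n + 1) := by positivity
      nlinarith
    calc K ^ Fintype.card (SP k T) ≤ K ^ b := h1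
      _ = 1 * K ^ b := (one_mul _).symm
      _ ≤ (cH * CL) * K ^ b := mul_le_mul_of_nonneg_right h2 (by positivity)
      _ = _ := by ring
  have hPlo : 1 ≤ K ^ (Fintype.card (SP k T) * (n + 2)) * P := by
    have h1 : ∏ v : SP k T, ∏ i : ι, K * w v i = K ^ (Fintype.card (SP k T) * (n + 2)) * P := by
      simp only [Finset.prod_mul_distrib, Finset.prod_const, Finset.card_univ]
      rw [hPdef, hn, ← pow_mul, mul_comm (n + 2)]
    rw [← h1]
    calc (1 : ℝ) = ∏ v : SP k T, ∏ i : ι, (1 : ℝ) := by simp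
      _ ≤ _ := Finset.prod_le_prod (fun v _ => by simp) fun v _ =>
          Finset.prod_le_prod (fun _ _ => zero_le_one) fun i _ => hKw v i
  have hMx := hm2 w hw x hxG'
  rw [hPdef] at hMx
  have hMx' : P * ∏ j, la j ≤ CM := by
    have h2 : ∏ j, HH A w (x j) = ∏ j, la j := Finset.prod_congr rfl fun j _ => hlaj j
    rw [← h2]; exact hMx
  have hla_hi : ∀ j, la j ≤ L := by
    intro j
    have h3 : ∏ j, la j = la j * ∏ i ∈ Finset.univ.erase j, la i := by
      rw [Finset.mul_prod_erase Finset.univ la (by simp)]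
    have h4 : (cH / K ^ Fintype.card (SP k T)) ^ (n + 1) ≤ ∏ i ∈ Finset.univ.erase j, la i := by
      have hcard : ((Finset.univ : Finset (Fin (Fintype.card ι))).erase j).card = n + 1 := by
        rw [Finset.card_erase_of_mem (by simp)]; simp [hn]
      calc (cH / K ^ Fintype.card (SP k T)) ^ (n + 1) =
          ∏ i ∈ Finset.univ.erase j, (cH / K ^ Fintype.card (SP k T)) := by
            rw [Finset.prod_const, hcard]
        _ ≤ _ := Finset.prod_le_prod (fun _ _ => by positivity) fun i _ => hla_lo i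
    have h5 : P * (la j * (cH / K ^ Fintype.card (SP k T)) ^ (n + 1)) ≤ CM := by
      refine le_trans ?_ hMx'
      rw [h3]
      apply mul_le_mul_of_nonneg_left _ hP.le
      exact mul_le_mul_of_nonneg_left h4 (hlap j).le
    have hcHK : 0 < (cH / K ^ Fintype.card (SP k T)) ^ (n + 1) := by positivity
    have h6 : la j * (cH / K ^ Fintype.card (SP k T)) ^ (n + 1) ≤
        K ^ (Fintype.card (SP k T) * (n + 2)) * CM := by
      calc la j * (cH / K ^ Fintype.card (SP k T)) ^ (n + 1)
          = 1 * (la j * (cH / K ^ Fintype.card (SP k T)) ^ (n + 1)) := (one_mul _).symm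
        _ ≤ (K ^ (Fintype.card (SP k T) * (n + 2)) * P) *
            (la j * (cH / K ^ Fintype.card (SP k T)) ^ (n + 1)) :=
            mul_le_mul_of_nonneg_right hPlo (mul_nonneg (hlap j).le hcHK.le)
        _ = K ^ (Fintype.card (SP k T) * (n + 2)) *
            (P * (la j * (cH / K ^ Fintype.card (SP k T)) ^ (n + 1))) := by ring
        _ ≤ _ := mul_le_mul_of_nonneg_left h5 (by positivity)
    have h7 : la j ≤ K ^ (Fintype.card (SP k T) * (n + 2)) * CM /
        (cH / K ^ Fintype.card (SP k T)) ^ (n + 1) := by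
      rw [le_div_iff₀ hcHK]; exact h6
    refine h7.trans ?_
    have h8 : K ^ (Fintype.card (SP k T) * (n + 2)) * CM /
        (cH / K ^ Fintype.card (SP k T)) ^ (n + 1) =
        (CM * (1 / cH) ^ (n + 1)) *
        K ^ (Fintype.card (SP k T) * (n + 2) + Fintype.card (SP k T) * (n + 1)) := by
      rw [div_pow, one_div, inv_pow, ← pow_mul]
      field_simp
      rw [← pow_add]
    rw [h8, ← hL]
    apply mul_le_mul
    · rw [← hCL]
      have : 0 < 1 / cH := by positivity
      linarith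
    · apply pow_le_pow_right₀ hK
      rw [← hb]
      nlinarith
    · positivity
    · linarith
  have hL0 : 0 < L := by linarith
  have hm_lo : ∀ j, 1 / L ≤ m j := fun j => by
    obtain ⟨j', -, h⟩ := hm3 j
    rw [h]; exact hla_lo' j'
  have hm_hi : ∀ j, m j ≤ L := fun j => by
    obtain ⟨j', -, h⟩ := hm3 j
    rw [h]; exact hla_hi j'
  have hcard0 : Fintype.card ι ≠ 0 := by omega
  have hκ_lo : 1 / L ≤ κ := by
    apply le_of_pow_le_pow_left₀ hcard0 hκ.le
    rw [hκN]
    calc (1 / L) ^ Fintype.card ι = ∏ j : Fin (Fintype.card ι), (1 / L) := by simp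
      _ ≤ _ := Finset.prod_le_prod (fun _ _ => by positivity) fun j _ => hm_lo j
  have hκ_hi : κ ≤ L := by
    apply le_of_pow_le_pow_left₀ hcard0 hL0.le
    rw [hκN]
    calc ∏ j, m j ≤ ∏ j : Fin (Fintype.card ι), L :=
          Finset.prod_le_prod (fun j _ => (hmp j).le) fun j _ => hm_hi j
      _ = _ := by simp
  generalize hrdef : (C5 * (C4 * κ)) ^ ((1 : ℝ) / (Fintype.card (SP k T) : ℝ)) = r at hroot
  have hr_hi : r ≤ (1 + C5 * C4) * L := by
    rw [← hrdef]
    refine (rpow_bounds _ hCκ _ hs1).trans ?_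
    nlinarith
  have hr_lo : 1 ≤ (1 + 1 / (C5 * C4)) * L * r := by
    have h1 : r⁻¹ ≤ (1 + 1 / (C5 * C4)) * L := by
      rw [← hrdef, ← Real.inv_rpow hCκ.le]
      refine (rpow_bounds _ (inv_pos.2 hCκ) _ hs1).trans ?_
      have h2 : κ⁻¹ ≤ L := by
        rw [inv_le_comm₀ hκ hL0, ← one_div]; exact hκ_lo
      have h3 : (C5 * (C4 * κ))⁻¹ = 1 / (C5 * C4) * κ⁻¹ := by
        field_simp
      rw [h3]
      have h4 : 0 < 1 / (C5 * C4) := by positivity
      nlinarith
    calc (1 : ℝ) = r⁻¹ * r := (inv_mul_cancel₀ hroot.ne').symm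
      _ ≤ _ := mul_le_mul_of_nonneg_right h1 hroot.le
  have hκinv : κ⁻¹ ≤ L := by
    rw [inv_le_comm₀ hκ hL0, ← one_div]; exact hκ_lo
  have hw'_hi : ∀ v i, w' v i ≤ K * L ^ 2 := by
    intro v i
    rw [hw'v]
    split_ifs
    · have h1 : w v i / (κ / m (π.symm i)) = w v i * (m (π.symm i) * κ⁻¹) := by
        have := (hmp (π.symm i)).ne'
        field_simp
      rw [h1]
      apply mul_le_mul (hwK v i) _ _ hK0.le
      · rw [sq]
        exact mul_le_mul (hm_hi _) hκinv (inv_pos.2 hκ).le hL0.le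
      · exact mul_nonneg (hmp _).le (inv_pos.2 hκ).le
    · calc w v i ≤ K := hwK v i
        _ = K * 1 := (mul_one _).symm
        _ ≤ _ := mul_le_mul_of_nonneg_left (one_le_pow₀ hL1) hK0.le
  have hw'_lo : ∀ v i, 1 ≤ K * L ^ 2 * w' v i := by
    intro v i
    rw [hw'v]
    split_ifs
    · have h1 : K * L ^ 2 * (w v i / (κ / m (π.symm i))) =
        (K * w v i) * ((L * m (π.symm i)) * (L * κ⁻¹)) := by
        have := (hmp (π.symm i)).ne'
        field_simp
      rw [h1]
      have h2 : 1 ≤ L * m (π.symm i) := by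
        have := hm_lo (π.symm i)
        rw [div_le_iff₀ hL0] at this
        linarith
      have h3 : 1 ≤ L * κ⁻¹ := by
        rw [← div_eq_mul_inv, le_div_iff₀ hκ]
        linarith
      have h4 := hKw v i
      exact one_le_mul_of_one_le_of_one_le h4 (one_le_mul_of_one_le_of_one_le h2 h3)
    · have h1 : K * L ^ 2 * w v i = (K * w v i) * L ^ 2 := by ring
      rw [h1]
      exact one_le_mul_of_one_le_of_one_le (hKw v i) (one_le_pow₀ hL1)
  have hLK : L ^ 3 * K = CL ^ 3 * K ^ (3 * b + 1) := by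
    rw [← hL]; ring
  have hX1 : 0 ≤ 4 * C4 / c := by positivity
  have hX2 : 0 ≤ (C5 * C4) ^ (n + 2) * 2 ^ (n + 2) * CM := by positivity
  have hX3 : 0 ≤ (1 + C5 * C4) * CL ^ 3 := by positivity
  have hX4 : 0 ≤ (1 + 1 / (C5 * C4)) * CL ^ 3 := by positivity
  refine ⟨fun v i => r * w' v i, fun v i => mul_pos hroot (hw'0 v i), ?_, ?_, ?_, ?_⟩
  · -- volume
    have h1 : ∏ v : SP k T, ∏ i : ι, r * w' v i = (C5 * (C4 * κ)) ^ (n + 2) * P := by
      simp only [Finset.prod_mul_distrib, Finset.prod_const, Finset.card_univ]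
      rw [hw'P, hn, ← pow_mul, mul_comm (n + 2), pow_mul]
      congr 2
      rw [← hrdef, ← Real.rpow_natCast, ← Real.rpow_mul hCκ.le, one_div, inv_mul_cancel₀,
        Real.rpow_one]
      have : 0 < Fintype.card (SP k T) := hs1
      exact_mod_cast this.ne'
    rw [h1]
    have h2 : κ ^ (n + 2) * P * (R * G) ≤ 2 ^ (n + 2) * R * CM := by
      rw [← hn, hκN]
      have h4 : ∏ j, m j = m jl * ∏ j ∈ Finset.univ.erase jl, m j := by
        rw [Finset.mul_prod_erase Finset.univ m (by simp)]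
      have h5 : ∏ j ∈ Finset.univ.erase jl, m j ≤ 2 ^ (n + 1) * ∏ j ∈ Finset.univ.erase jl, la j := by
        have hcard : ((Finset.univ : Finset (Fin (Fintype.card ι))).erase jl).card = n + 1 := by
          rw [Finset.card_erase_of_mem (by simp)]; simp [hn]
        calc ∏ j ∈ Finset.univ.erase jl, m j ≤ ∏ j ∈ Finset.univ.erase jl, 2 * la j :=
              Finset.prod_le_prod (fun j _ => (hmp j).le) fun j _ => hm2' j
          _ = _ := by rw [Finset.prod_mul_distrib, Finset.prod_const, hcard]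
      have hmR : m jl ≤ 2 * R := by
        obtain ⟨j', hj', h⟩ := hm3 jl
        rw [h]
        exact (hcl1 j' hj').2
      have hRG : R * G ≤ la jl := by
        have := hgap.2 (x jl) (hxS jl) hxl
        rw [hlaj] at this
        exact this
      have h6 : ∏ j, la j = la jl * ∏ j ∈ Finset.univ.erase jl, la j := by
        rw [Finset.mul_prod_erase Finset.univ la (by simp)]
      have hpp : 0 ≤ ∏ j ∈ Finset.univ.erase jl, la j :=
        Finset.prod_nonneg fun j _ => (hlap j).le
      have h7 : ∏ j, m j ≤ (2 * R) * (2 ^ (n + 1) * ∏ j ∈ Finset.univ.erase jl, la j) := by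
        rw [h4]
        exact mul_le_mul hmR h5 (Finset.prod_nonneg fun j _ => (hmp j).le) (by linarith)
      calc (∏ j, m j) * P * (R * G) ≤
          ((2 * R) * (2 ^ (n + 1) * ∏ j ∈ Finset.univ.erase jl, la j)) * P * (la jl) := by
            apply mul_le_mul _ hRG (by positivity)
            · positivity
            · exact mul_le_mul_of_nonneg_right h7 hP.le
        _ = 2 ^ (n + 2) * R * (P * (la jl * ∏ j ∈ Finset.univ.erase jl, la j)) := by ring
        _ = 2 ^ (n + 2) * R * (P * ∏ j, la j) := by rw [h6]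
        _ ≤ 2 ^ (n + 2) * R * CM := by
            apply mul_le_mul_of_nonneg_left hMx'
            positivity
        _ = _ := by rw [hn]
    have h3 : κ ^ (n + 2) * P * G ≤ 2 ^ (n + 2) * CM := by
      have : R * (κ ^ (n + 2) * P * G) ≤ R * (2 ^ (n + 2) * CM) := by linarith
      exact le_of_mul_le_mul_left this hR
    calc (C5 * (C4 * κ)) ^ (n + 2) * P * G = (C5 * C4) ^ (n + 2) * (κ ^ (n + 2) * P * G) := by
          rw [← mul_assoc, mul_pow]; ring
      _ ≤ (C5 * C4) ^ (n + 2) * (2 ^ (n + 2) * CM) :=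
          mul_le_mul_of_nonneg_left h3 (by positivity)
      _ ≤ _ := by linarith
  · intro v i
    calc r * w' v i ≤ ((1 + C5 * C4) * L) * (K * L ^ 2) :=
          mul_le_mul hr_hi (hw'_hi v i) (hw'0 v i).le (by positivity)
      _ = (1 + C5 * C4) * (L ^ 3 * K) := by ring
      _ = ((1 + C5 * C4) * CL ^ 3) * K ^ (3 * b + 1) := by rw [hLK]; ring
      _ ≤ _ := by
          apply mul_le_mul_of_nonneg_right _ (by positivity)
          linarith
  · intro v i
    have h1 : 1 ≤ ((1 + 1 / (C5 * C4)) * L * r) * (K * L ^ 2 * w' v i) :=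
      one_le_mul_of_one_le_of_one_le hr_lo (hw'_lo v i)
    calc 1 ≤ _ := h1
      _ = (1 + 1 / (C5 * C4)) * (L ^ 3 * K) * (r * w' v i) := by ring
      _ = ((1 + 1 / (C5 * C4)) * CL ^ 3) * K ^ (3 * b + 1) * (r * w' v i) := by rw [hLK]; ring
      _ ≤ _ := by
          apply mul_le_mul_of_nonneg_right _ (mul_pos hroot (hw'0 v i)).le
          apply mul_le_mul_of_nonneg_right _ (by positivity)
          linarith
  · -- spanned
    show W ≤ _
    conv_lhs => rw [← hWspan']
    rw [Submodule.span_le]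
    rintro _ ⟨j, hj, rfl⟩
    have hjj : j ≠ j0 := (Finset.mem_erase.1 (Finset.mem_coe.1 hj)).1
    obtain ⟨α, hα0, hα⟩ := balance C5 hC5 hbal A w' hw'0 (x' j) (hx'S j) (C4 * κ)
      (by positivity) (hHpos w' hw'0 (x' j) (hx'S j) (hx'li.ne_zero j)) (hsmall j hjj)
    rw [hrdef] at hα
    have h1 : α • x' j ∈ Submodule.span k {x | x ∈ W ∧ InBox A (fun v i => r * w' v i) x} :=
      Submodule.subset_span ⟨W.smul_mem α (hx'W j hjj), hα⟩
    have h2 := Submodule.smul_mem _ α⁻¹ h1
    rwa [smul_smul, inv_mul_cancel₀ hα0, one_smul] at h2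

end Pool.Agent.Helper55.Ru
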